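import Pool.Agent.W622.ETG.Lin
import Pool.Agent.W622.ETG.Stm
set_option autoImplicit false
set_option linter.unusedSectionVars false

/-!
# Project ELG: BRO, families of elementary type give structures of elementary type
-/

namespace Pool.Agent.W764.ELG

open Pool.Agent.W622.ETG Pool.Agent.H315R3.ETC Module

/-! ### isomorphisms -/

theorem iso_of_bij (S T : QData) (f : S.G →* T.G) (hf : Function.Bijective f)
    (hneg : f S.neg = T.neg)
    (hq : ∀ a b c d, S.q a b = S.q c d ↔ T.q (f a) (f b) = T.q (f c) (f d)) : Iso S T :=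
  ⟨MulEquiv.ofBijective f hf, hneg, hq⟩

/-- the trivial structure on a vector space -/
def TT (U : Type) [AddCommGroup U] (u : U) : QData :=
  ⟨Multiplicative U, Unit, Multiplicative.ofAdd u, fun _ _ => (), ()⟩

theorem iso_TT {U U' : Type} [AddCommGroup U] [AddCommGroup U'] (e : U ≃+ U') :
    Iso (TT U 0) (TT U' 0) :=
  ⟨AddEquiv.toMultiplicative e, map_one _, fun _ _ _ _ => ⟨fun _ => rfl, fun _ => rfl⟩⟩

theorem elem_TT_fin (n : ℕ) : Elem (TT (Fin n → ZMod 2) 0) := by
  induction n with
  | zero =>
    refine Elem.iso L0 _ Elem.l0 ?_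
    refine iso_of_bij L0 (TT (Fin 0 → ZMod 2) 0) (1 : Unit →* Multiplicative (Fin 0 → ZMod 2)) ?_
      rfl (fun _ _ _ _ => ⟨fun _ => rfl, fun _ => rfl⟩)
    refine ⟨fun a b _ => rfl, fun b => ⟨(), ?_⟩⟩
    exact Subsingleton.elim (α := Multiplicative (Fin 0 → ZMod 2)) _ _
  | succ n ih =>
    refine Elem.iso _ _ (Elem.prod L10 _ Elem.l10 ih) ?_
    let f : (C2 × Multiplicative (Fin n → ZMod 2)) →* Multiplicative (Fin (n + 1) → ZMod 2) :=
      { toFun := fun x => Multiplicative.ofAdd (Fin.cons (Multiplicative.toAdd x.1)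
          (Multiplicative.toAdd x.2) : Fin (n + 1) → ZMod 2)
        map_one' := by
          apply Multiplicative.toAdd.injective
          funext i
          refine Fin.cases ?_ (fun i => ?_) i <;> rfl
        map_mul' := by
          intro x y
          apply Multiplicative.toAdd.injective
          funext i
          refine Fin.cases ?_ (fun i => ?_) i <;> rfl }
    have hf : Function.Bijective f := by
      constructor
      · intro x y hxy
        have h1 : (Fin.cons (Multiplicative.toAdd x.1) (Multiplicative.toAdd x.2) :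
            Fin (n + 1) → ZMod 2) = Fin.cons (Multiplicative.toAdd y.1)
              (Multiplicative.toAdd y.2) := hxy
        rw [Fin.cons_inj] at h1
        exact Prod.ext (Multiplicative.toAdd.injective h1.1)
          (Multiplicative.toAdd.injective h1.2)
      · intro y
        refine ⟨(Multiplicative.ofAdd ((Multiplicative.toAdd y : Fin (n + 1) → ZMod 2) 0),
          Multiplicative.ofAdd (Fin.tail (Multiplicative.toAdd y : Fin (n + 1) → ZMod 2))), ?_⟩
        apply Multiplicative.toAdd.injective
        exact Fin.cons_self_tail (Multiplicative.toAdd y : Fin (n + 1) → ZMod 2)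
    refine iso_of_bij (Pool.Agent.H315R3.ETC.prod L10 (TT (Fin n → ZMod 2) 0))
      (TT (Fin (n + 1) → ZMod 2) 0) f hf (map_one f) ?_
    intro a b c d
    exact ⟨fun _ => rfl, fun _ => rfl⟩

theorem elem_TT0 (U : Type) [AddCommGroup U] [Module (ZMod 2) U] [Finite U] :
    Elem (TT U 0) := by
  refine Elem.iso _ _ (elem_TT_fin (finrank (ZMod 2) U)) (iso_TT ?_)
  exact (Module.finBasis (ZMod 2) U).equivFun.symm.toAddEquiv

theorem elem_TT (U : Type) [AddCommGroup U] [Module (ZMod 2) U] [Finite U] (u : U) :
    Elem (TT U u) := by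
  by_cases hu : u = 0
  · rw [hu]
    exact elem_TT0 U
  obtain ⟨K, hK⟩ := exists_isCompl (Submodule.span (ZMod 2) {u})
  refine Elem.iso _ _ (Elem.prod L11 (TT K 0) Elem.l11 (elem_TT0 K)) ?_
  let f : (C2 × Multiplicative K) →* Multiplicative U :=
    { toFun := fun x => Multiplicative.ofAdd
        ((Multiplicative.toAdd x.1 : ZMod 2) • u + ((Multiplicative.toAdd x.2 : K) : U))
      map_one' := by
        apply Multiplicative.toAdd.injective
        change (0 : ZMod 2) • u + (0 : U) = 0
        rw [zero_smul, add_zero]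
      map_mul' := by
        intro x y
        apply Multiplicative.toAdd.injective
        change ((Multiplicative.toAdd x.1 : ZMod 2) + (Multiplicative.toAdd y.1 : ZMod 2)) • u
            + (((Multiplicative.toAdd x.2 : K) : U) + ((Multiplicative.toAdd y.2 : K) : U))
          = (Multiplicative.toAdd x.1 : ZMod 2) • u + ((Multiplicative.toAdd x.2 : K) : U)
            + ((Multiplicative.toAdd y.1 : ZMod 2) • u + ((Multiplicative.toAdd y.2 : K) : U))
        rw [add_smul]
        abel }
  have hf : Function.Bijective f := by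
    constructor
    · rw [injective_iff_map_eq_one]
      intro x hx
      have h1 : (Multiplicative.toAdd x.1 : ZMod 2) • u + ((Multiplicative.toAdd x.2 : K) : U) = 0 :=
        congrArg Multiplicative.toAdd hx
      have h2 : (Multiplicative.toAdd x.1 : ZMod 2) • u = ((Multiplicative.toAdd x.2 : K) : U) :=
        add_eq_zero'.1 h1
      have h3 : (Multiplicative.toAdd x.1 : ZMod 2) • u ∈ Submodule.span (ZMod 2) {u} ⊓ K :=
        ⟨Submodule.smul_mem _ _ (Submodule.mem_span_singleton_self u),
          h2 ▸ (Multiplicative.toAdd x.2 : K).2⟩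
      rw [hK.inf_eq_bot, Submodule.mem_bot] at h3
      have h4 : (Multiplicative.toAdd x.1 : ZMod 2) = 0 := (smul_eq_zero.1 h3).resolve_right hu
      have h5 : ((Multiplicative.toAdd x.2 : K) : U) = 0 := h2 ▸ h3
      exact Prod.ext (Multiplicative.toAdd.injective h4)
        (Multiplicative.toAdd.injective (Subtype.ext h5))
    · intro y
      have hy : (Multiplicative.toAdd y : U) ∈ Submodule.span (ZMod 2) {u} ⊔ K := by
        rw [hK.sup_eq_top]
        exact Submodule.mem_top
      obtain ⟨v, hv, w, hw, hvw⟩ := Submodule.mem_sup.1 hy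
      obtain ⟨α, rfl⟩ := Submodule.mem_span_singleton.1 hv
      exact ⟨(Multiplicative.ofAdd α, Multiplicative.ofAdd (⟨w, hw⟩ : K)),
        Multiplicative.toAdd.injective hvw⟩
  refine iso_of_bij (Pool.Agent.H315R3.ETC.prod L11 (TT K 0)) (TT U u) f hf ?_
    (fun _ _ _ _ => ⟨fun _ => rfl, fun _ => rfl⟩)
  apply Multiplicative.toAdd.injective
  change (1 : ZMod 2) • u + (0 : U) = u
  rw [one_smul, add_zero]

section
variable {V : Type} [AddCommGroup V] [Module (ZMod 2) V]

/-! ### restriction to a subspace -/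

/-- the restriction to a subspace -/
def QW (A : Fam V) (W : Submodule (ZMod 2) V) (w : W) : QData where
  G := Multiplicative W
  Q := A → ZMod 2
  neg := Multiplicative.ofAdd w
  q := fun a b ω => ω.1 ((Multiplicative.toAdd a : W) : V) ((Multiplicative.toAdd b : W) : V)
  zero := fun _ => 0

theorem QW_eq (A : Fam V) (W : Submodule (ZMod 2) V) (w : W) (a b c d : Multiplicative W) :
    (QW A W w).q a b = (QW A W w).q c d ↔ ∀ ω ∈ A,
      ω ((Multiplicative.toAdd a : W) : V) ((Multiplicative.toAdd b : W) : V) =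
      ω ((Multiplicative.toAdd c : W) : V) ((Multiplicative.toAdd d : W) : V) := by
  constructor
  · intro h ω hω
    exact congrFun h ⟨ω, hω⟩
  · intro h
    funext ω
    exact h ω.1 ω.2

theorem elem_triv [Finite V] (A : Fam V) (W : Submodule (ZMod 2) V) (w : W)
    (h : ∀ a ∈ W, ∀ b ∈ W, ∀ ω ∈ A, ω a b = 0) : Elem (QW A W w) := by
  refine Elem.iso _ _ (elem_TT W w) ?_
  refine iso_of_bij (TT W w) (QW A W w) (MonoidHom.id (Multiplicative W)) Function.bijective_id
    rfl ?_
  intro a b c d
  refine ⟨fun _ => ?_, fun _ => rfl⟩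
  refine (QW_eq A W w a b c d).2 (fun ω hω => ?_)
  rw [h _ (Multiplicative.toAdd a : W).2 _ (Multiplicative.toAdd b : W).2 ω hω,
    h _ (Multiplicative.toAdd c : W).2 _ (Multiplicative.toAdd d : W).2 ω hω]

/-- the common kernel -/
def rad (A : Fam V) : Submodule (ZMod 2) V where
  carrier := {v | ∀ ω ∈ A, ω v = 0}
  add_mem' := by
    intro v w hv hw ω hω
    rw [map_add, hv ω hω, hw ω hω, add_zero]
  zero_mem' := by
    intro ω _
    rw [map_zero]
  smul_mem' := by
    intro c v hv ω hω
    rw [map_smul, hv ω hω, smul_zero]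

theorem mem_rad {A : Fam V} {v : V} : v ∈ rad A ↔ ∀ ω ∈ A, ω v = 0 := Iff.rfl

/-- direct products -/
theorem iso_prod {e : V} (A B : Fam V) (hA : EFam e A) (hB : EFam e B)
    (W₁ W₂ W : Submodule (ZMod 2) V) (w₁ : W₁) (w₂ : W₂) (w : W)
    (hw : (w₁ : V) + (w₂ : V) = (w : V))
    (hsup : W₁ ⊔ W₂ = W) (hdis : Disjoint W₁ W₂) (h1 : W₂ ≤ rad A) (h2 : W₁ ≤ rad B) :
    Iso (Pool.Agent.H315R3.ETC.prod (QW A W₁ w₁) (QW B W₂ w₂)) (QW (A ⊔ B) W w) := by
  have hl : W₁ ≤ W := hsup ▸ le_sup_left
  have hr : W₂ ≤ W := hsup ▸ le_sup_right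
  let f : (Multiplicative W₁ × Multiplicative W₂) →* Multiplicative W :=
    { toFun := fun x => Multiplicative.ofAdd
        (⟨((Multiplicative.toAdd x.1 : W₁) : V) + ((Multiplicative.toAdd x.2 : W₂) : V),
          W.add_mem (hl (Multiplicative.toAdd x.1 : W₁).2)
            (hr (Multiplicative.toAdd x.2 : W₂).2)⟩ : W)
      map_one' := by
        apply Multiplicative.toAdd.injective
        apply Subtype.ext
        change (0 : V) + 0 = 0
        rw [add_zero]
      map_mul' := by
        intro x y
        apply Multiplicative.toAdd.injective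
        apply Subtype.ext
        change ((Multiplicative.toAdd x.1 : W₁) : V) + ((Multiplicative.toAdd y.1 : W₁) : V)
            + (((Multiplicative.toAdd x.2 : W₂) : V) + ((Multiplicative.toAdd y.2 : W₂) : V))
          = ((Multiplicative.toAdd x.1 : W₁) : V) + ((Multiplicative.toAdd x.2 : W₂) : V)
            + (((Multiplicative.toAdd y.1 : W₁) : V) + ((Multiplicative.toAdd y.2 : W₂) : V))
        abel }
  have hf : Function.Bijective f := by
    constructor
    · rw [injective_iff_map_eq_one]
      intro x hx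
      have h3 : ((Multiplicative.toAdd x.1 : W₁) : V) + ((Multiplicative.toAdd x.2 : W₂) : V) = 0 :=
        congrArg Subtype.val (congrArg Multiplicative.toAdd hx)
      have h4 : ((Multiplicative.toAdd x.1 : W₁) : V) = ((Multiplicative.toAdd x.2 : W₂) : V) :=
        add_eq_zero'.1 h3
      have h5 : ((Multiplicative.toAdd x.1 : W₁) : V) ∈ W₁ ⊓ W₂ :=
        ⟨(Multiplicative.toAdd x.1 : W₁).2, h4 ▸ (Multiplicative.toAdd x.2 : W₂).2⟩
      rw [hdis.eq_bot, Submodule.mem_bot] at h5
      have h6 : ((Multiplicative.toAdd x.2 : W₂) : V) = 0 := h4 ▸ h5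
      exact Prod.ext (Multiplicative.toAdd.injective (Subtype.ext h5))
        (Multiplicative.toAdd.injective (Subtype.ext h6))
    · intro y
      have hy : ((Multiplicative.toAdd y : W) : V) ∈ W₁ ⊔ W₂ := by
        rw [hsup]
        exact (Multiplicative.toAdd y : W).2
      obtain ⟨u, hu, v, hv, huv⟩ := Submodule.mem_sup.1 hy
      refine ⟨(Multiplicative.ofAdd (⟨u, hu⟩ : W₁), Multiplicative.ofAdd (⟨v, hv⟩ : W₂)), ?_⟩
      exact Multiplicative.toAdd.injective (Subtype.ext huv)
  have key : ∀ α ∈ A, ∀ β ∈ B, ∀ x y : Multiplicative W₁, ∀ x' y' : Multiplicative W₂,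
      (α + β) ((Multiplicative.toAdd (f (x, x')) : W) : V)
        ((Multiplicative.toAdd (f (y, y')) : W) : V)
      = α ((Multiplicative.toAdd x : W₁) : V) ((Multiplicative.toAdd y : W₁) : V)
        + β ((Multiplicative.toAdd x' : W₂) : V) ((Multiplicative.toAdd y' : W₂) : V) := by
    intro α hα β hβ x y x' y'
    change (α + β) (((Multiplicative.toAdd x : W₁) : V) + ((Multiplicative.toAdd x' : W₂) : V))
      (((Multiplicative.toAdd y : W₁) : V) + ((Multiplicative.toAdd y' : W₂) : V)) = _
    have k1 : α ((Multiplicative.toAdd x' : W₂) : V) = 0 := h1 (Multiplicative.toAdd x' : W₂).2 α hα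
    have k2 : α ((Multiplicative.toAdd y' : W₂) : V) = 0 := h1 (Multiplicative.toAdd y' : W₂).2 α hα
    have k3 : β ((Multiplicative.toAdd x : W₁) : V) = 0 := h2 (Multiplicative.toAdd x : W₁).2 β hβ
    have k4 : β ((Multiplicative.toAdd y : W₁) : V) = 0 := h2 (Multiplicative.toAdd y : W₁).2 β hβ
    have k5 : α ((Multiplicative.toAdd x : W₁) : V) ((Multiplicative.toAdd y' : W₂) : V) = 0 := by
      rw [(hA α hα).symm, k2]
      rfl
    have k6 : β ((Multiplicative.toAdd x' : W₂) : V) ((Multiplicative.toAdd y : W₁) : V) = 0 := by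
      rw [(hB β hβ).symm, k4]
      rfl
    simp only [LinearMap.add_apply, map_add, k1, k3, k5, k6, LinearMap.zero_apply]
    ring
  have hq : ∀ (a₁ b₁ c₁ d₁ : Multiplicative W₁) (a₂ b₂ c₂ d₂ : Multiplicative W₂),
      ((∀ ω ∈ A, ω ((Multiplicative.toAdd a₁ : W₁) : V) ((Multiplicative.toAdd b₁ : W₁) : V) =
          ω ((Multiplicative.toAdd c₁ : W₁) : V) ((Multiplicative.toAdd d₁ : W₁) : V)) ∧
        (∀ ω ∈ B, ω ((Multiplicative.toAdd a₂ : W₂) : V) ((Multiplicative.toAdd b₂ : W₂) : V) =
          ω ((Multiplicative.toAdd c₂ : W₂) : V) ((Multiplicative.toAdd d₂ : W₂) : V))) ↔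
      ∀ ω ∈ A ⊔ B, ω ((Multiplicative.toAdd (f (a₁, a₂)) : W) : V)
        ((Multiplicative.toAdd (f (b₁, b₂)) : W) : V) =
        ω ((Multiplicative.toAdd (f (c₁, c₂)) : W) : V)
        ((Multiplicative.toAdd (f (d₁, d₂)) : W) : V) := by
    intro a₁ b₁ c₁ d₁ a₂ b₂ c₂ d₂
    constructor
    · rintro ⟨g1, g2⟩ ω hω
      obtain ⟨α, hα, β, hβ, rfl⟩ := Submodule.mem_sup.1 hω
      rw [key α hα β hβ, key α hα β hβ, g1 α hα, g2 β hβ]
    · intro g
      constructor
      · intro α hα
        have h3 := g (α + 0) (Submodule.add_mem_sup hα B.zero_mem)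
        rw [key α hα 0 B.zero_mem, key α hα 0 B.zero_mem] at h3
        simpa using h3
      · intro β hβ
        have h3 := g (0 + β) (Submodule.add_mem_sup A.zero_mem hβ)
        rw [key 0 A.zero_mem β hβ, key 0 A.zero_mem β hβ] at h3
        simpa using h3
  refine iso_of_bij (Pool.Agent.H315R3.ETC.prod (QW A W₁ w₁) (QW B W₂ w₂)) (QW (A ⊔ B) W w) f hf
    (Multiplicative.toAdd.injective (Subtype.ext hw)) ?_
  rintro ⟨a₁, a₂⟩ ⟨b₁, b₂⟩ ⟨c₁, c₂⟩ ⟨d₁, d₂⟩
  have e0 : ((Pool.Agent.H315R3.ETC.prod (QW A W₁ w₁) (QW B W₂ w₂)).q (a₁, a₂) (b₁, b₂) =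
      (Pool.Agent.H315R3.ETC.prod (QW A W₁ w₁) (QW B W₂ w₂)).q (c₁, c₂) (d₁, d₂)) ↔
      ((QW A W₁ w₁).q a₁ b₁ = (QW A W₁ w₁).q c₁ d₁ ∧
        (QW B W₂ w₂).q a₂ b₂ = (QW B W₂ w₂).q c₂ d₂) :=
    Prod.mk_inj
  exact e0.trans ((and_congr (QW_eq A W₁ w₁ a₁ b₁ c₁ d₁) (QW_eq B W₂ w₂ a₂ b₂ c₂ d₂)).trans
    ((hq a₁ b₁ c₁ d₁ a₂ b₂ c₂ d₂).trans
      (QW_eq (A ⊔ B) W w (f (a₁, a₂)) (f (b₁, b₂)) (f (c₁, c₂)) (f (d₁, d₂))).symm))

theorem pw_eq {W : Submodule (ZMod 2) V} (a : Multiplicative W) (β : C2) :
    pw a β = Multiplicative.ofAdd ((Multiplicative.toAdd β : ZMod 2) • (Multiplicative.toAdd a : W)) := by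
  unfold pw
  rcases z01 (Multiplicative.toAdd β : ZMod 2) with h | h
  · have h1 : β = 1 := Multiplicative.toAdd.injective h
    rw [if_pos h1, h, zero_smul]
    rfl
  · have h1 : β ≠ 1 := by
      intro h2
      rw [h2] at h
      exact absurd h (by decide)
    rw [if_neg h1, h, one_smul]
    rfl

/-- group extensions -/
theorem iso_ext (A C : Fam V) (W₀ W : Submodule (ZMod 2) V) (x : V) (w₀ : W₀) (w : W)
    (hw : (w₀ : V) = (w : V)) (hx : x ∉ W₀)
    (hW : W = W₀ ⊔ Submodule.span (ZMod 2) {x})
    (hq : ∀ a ∈ W₀, ∀ b ∈ W₀, ∀ c ∈ W₀, ∀ d ∈ W₀, ∀ α β γ δ : ZMod 2,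
      (∀ ω ∈ C, ω (a + α • x) (b + β • x) = ω (c + γ • x) (d + δ • x)) ↔
        ((∀ ω ∈ A, ω a b = ω c d) ∧ β • α • (w₀ : V) + β • a + α • b
          = δ • γ • (w₀ : V) + δ • c + γ • d)) :
    Iso (ext (QW A W₀ w₀)) (QW C W w) := by
  have hl : W₀ ≤ W := hW ▸ le_sup_left
  have hxW : x ∈ W := by
    rw [hW]
    exact Submodule.mem_sup_right (Submodule.mem_span_singleton_self x)
  let f : (Multiplicative W₀ × C2) →* Multiplicative W :=
    { toFun := fun u => Multiplicative.ofAdd
        (⟨((Multiplicative.toAdd u.1 : W₀) : V) + (Multiplicative.toAdd u.2 : ZMod 2) • x,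
          W.add_mem (hl (Multiplicative.toAdd u.1 : W₀).2) (W.smul_mem _ hxW)⟩ : W)
      map_one' := by
        apply Multiplicative.toAdd.injective
        apply Subtype.ext
        change (0 : V) + (0 : ZMod 2) • x = 0
        rw [zero_smul, add_zero]
      map_mul' := by
        intro u v
        apply Multiplicative.toAdd.injective
        apply Subtype.ext
        change ((Multiplicative.toAdd u.1 : W₀) : V) + ((Multiplicative.toAdd v.1 : W₀) : V)
            + ((Multiplicative.toAdd u.2 : ZMod 2) + (Multiplicative.toAdd v.2 : ZMod 2)) • x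
          = ((Multiplicative.toAdd u.1 : W₀) : V) + (Multiplicative.toAdd u.2 : ZMod 2) • x
            + (((Multiplicative.toAdd v.1 : W₀) : V) + (Multiplicative.toAdd v.2 : ZMod 2) • x)
        rw [add_smul]
        abel }
  have hf : Function.Bijective f := by
    constructor
    · rw [injective_iff_map_eq_one]
      intro u hu
      have h3 : ((Multiplicative.toAdd u.1 : W₀) : V)
          + (Multiplicative.toAdd u.2 : ZMod 2) • x = 0 :=
        congrArg Subtype.val (congrArg Multiplicative.toAdd hu)
      rcases z01 (Multiplicative.toAdd u.2 : ZMod 2) with h4 | h4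
      · rw [h4, zero_smul, add_zero] at h3
        exact Prod.ext (Multiplicative.toAdd.injective (Subtype.ext h3))
          (Multiplicative.toAdd.injective h4)
      · rw [h4, one_smul] at h3
        exfalso
        apply hx
        rw [← Pool.Agent.W622.ETC.add_eq_zero'.1 h3]
        exact (Multiplicative.toAdd u.1 : W₀).2
    · intro y
      have hy : ((Multiplicative.toAdd y : W) : V) ∈ W₀ ⊔ Submodule.span (ZMod 2) {x} := by
        rw [← hW]
        exact (Multiplicative.toAdd y : W).2
      obtain ⟨u, hu, v, hv, huv⟩ := Submodule.mem_sup.1 hy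
      obtain ⟨α, rfl⟩ := Submodule.mem_span_singleton.1 hv
      refine ⟨(Multiplicative.ofAdd (⟨u, hu⟩ : W₀), Multiplicative.ofAdd α), ?_⟩
      exact Multiplicative.toAdd.injective (Subtype.ext huv)
  have e2 : ∀ (a b : Multiplicative W₀) (α β : C2),
      ((Multiplicative.toAdd (pw (pw (Multiplicative.ofAdd w₀ : Multiplicative W₀) α) β * pw a β
          * pw b α) : W₀) : V)
        = (Multiplicative.toAdd β : ZMod 2) • (Multiplicative.toAdd α : ZMod 2) • (w₀ : V)
          + (Multiplicative.toAdd β : ZMod 2) • ((Multiplicative.toAdd a : W₀) : V)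
          + (Multiplicative.toAdd α : ZMod 2) • ((Multiplicative.toAdd b : W₀) : V) := by
    intro a b α β
    rw [pw_eq (Multiplicative.ofAdd w₀ : Multiplicative W₀) α, pw_eq _ β, pw_eq a β, pw_eq b α]
    rfl
  have hq' : ∀ (a b c d : Multiplicative W₀) (α β γ δ : C2),
      ((∀ ω ∈ A, ω ((Multiplicative.toAdd a : W₀) : V) ((Multiplicative.toAdd b : W₀) : V) =
          ω ((Multiplicative.toAdd c : W₀) : V) ((Multiplicative.toAdd d : W₀) : V)) ∧
        (pw (pw (Multiplicative.ofAdd w₀ : Multiplicative W₀) α) β * pw a β * pw b α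
            = pw (pw (Multiplicative.ofAdd w₀ : Multiplicative W₀) γ) δ * pw c δ * pw d γ)) ↔
      ∀ ω ∈ C, ω ((Multiplicative.toAdd (f (a, α)) : W) : V)
        ((Multiplicative.toAdd (f (b, β)) : W) : V) =
        ω ((Multiplicative.toAdd (f (c, γ)) : W) : V)
        ((Multiplicative.toAdd (f (d, δ)) : W) : V) := by
    intro a b c d α β γ δ
    have e3 := hq _ (Multiplicative.toAdd a : W₀).2 _ (Multiplicative.toAdd b : W₀).2 _
      (Multiplicative.toAdd c : W₀).2 _ (Multiplicative.toAdd d : W₀).2
      (Multiplicative.toAdd α) (Multiplicative.toAdd β) (Multiplicative.toAdd γ)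
      (Multiplicative.toAdd δ)
    refine Iff.trans ?_ e3.symm
    refine and_congr_right (fun _ => ?_)
    rw [← e2, ← e2]
    constructor
    · intro h
      rw [h]
    · intro h
      exact Multiplicative.toAdd.injective (Subtype.ext h)
  refine iso_of_bij (ext (QW A W₀ w₀)) (QW C W w) f hf ?_ ?_
  · apply Multiplicative.toAdd.injective
    apply Subtype.ext
    change (w₀ : V) + (0 : ZMod 2) • x = (w : V)
    rw [zero_smul, add_zero, hw]
  rintro ⟨a, α⟩ ⟨b, β⟩ ⟨c, γ⟩ ⟨d, δ⟩
  have e0 : ∀ (a b c d : Multiplicative W₀) (α β γ δ : C2),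
      ((ext (QW A W₀ w₀)).q (a, α) (b, β) = (ext (QW A W₀ w₀)).q (c, γ) (d, δ)) ↔
      ((QW A W₀ w₀).q a b = (QW A W₀ w₀).q c d ∧
        pw (pw (Multiplicative.ofAdd w₀ : Multiplicative W₀) α) β * pw a β * pw b α
          = pw (pw (Multiplicative.ofAdd w₀ : Multiplicative W₀) γ) δ * pw c δ * pw d γ) :=
    fun _ _ _ _ _ _ _ _ => Prod.mk_inj
  exact (e0 a b c d α β γ δ).trans ((and_congr_left' (QW_eq A W₀ w₀ a b c d)).trans
    ((hq' a b c d α β γ δ).trans
      (QW_eq C W w (f (a, α)) (f (b, β)) (f (c, γ)) (f (d, δ))).symm))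

end

section
variable {V : Type} [AddCommGroup V] [Module (ZMod 2) V] [Finite V] {e : V}

/-- the induction claim -/
def PP' (e : V) (A : Fam V) : Prop :=
  ∀ (W : Submodule (ZMod 2) V) (w : W), W ⊔ rad A = ⊤ → e + (w : V) ∈ rad A → Elem (QW A W w)

/-- reduction to complements -/
theorem reduce (A : Fam V) (hA : EFam e A)
    (h : ∀ (W : Submodule (ZMod 2) V) (w : W), IsCompl W (rad A) → e + (w : V) ∈ rad A →
      Elem (QW A W w)) : PP' e A := by
  intro W w hW hw
  obtain ⟨K, hK⟩ := exists_isCompl (W ⊓ rad A)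
  have h1 : W ⊓ K ⊔ W ⊓ rad A = W := by
    have : (K ⊔ W ⊓ rad A) ⊓ W = W ⊓ K ⊔ W ⊓ rad A := by
      rw [sup_comm K, sup_inf_assoc_of_le K (inf_le_left : W ⊓ rad A ≤ W), sup_comm, inf_comm K]
    rw [← this, sup_comm K, hK.sup_eq_top, top_inf_eq]
  have h2 : (W ⊓ K) ⊓ rad A = ⊥ := by
    rw [inf_right_comm]
    exact hK.inf_eq_bot
  have h3 : (W ⊓ K) ⊔ rad A = ⊤ := by
    rw [eq_top_iff, ← hW]
    refine sup_le ?_ le_sup_right
    rw [← h1]
    refine sup_le ?_ (inf_le_right.trans le_sup_right)
    rw [h1]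
    exact le_sup_left
  have hw2 : (w : V) ∈ W ⊓ K ⊔ W ⊓ rad A := by
    rw [h1]
    exact w.2
  obtain ⟨w₁, hw₁, w₂, hw₂, hww⟩ := Submodule.mem_sup.1 hw2
  have hw₁' : e + w₁ ∈ rad A := by
    have h4 := (rad A).add_mem hw hw₂.2
    have h5 : e + (w : V) + w₂ = e + w₁ := by
      rw [← hww, add_assoc, add_cancel' w₁ w₂]
    rw [h5] at h4
    exact h4
  have h4 := h (W ⊓ K) ⟨w₁, hw₁⟩ ⟨disjoint_iff.2 h2, codisjoint_iff.2 h3⟩ hw₁'
  have h5 : Elem (QW (⊥ : Fam V) (W ⊓ rad A) ⟨w₂, hw₂⟩) := by
    refine elem_triv _ _ _ ?_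
    intro a _ b _ ω hω
    rw [(Submodule.mem_bot _).1 hω]
    rfl
  have hbot : EFam e (⊥ : Fam V) := by
    intro ω hω
    rw [(Submodule.mem_bot _).1 hω]
    exact EF.zero
  have h6 := iso_prod A ⊥ hA hbot (W ⊓ K) (W ⊓ rad A) W ⟨w₁, hw₁⟩ ⟨w₂, hw₂⟩ w hww h1
    ((disjoint_iff.2 h2).mono_right inf_le_right) inf_le_right
    (by
      intro v _ ω hω
      rw [(Submodule.mem_bot _).1 hω]
      rfl)
  rw [sup_bot_eq] at h6
  exact Elem.iso _ _ (Elem.prod _ _ h4 h5) h6

omit [Finite V] in
theorem span_frm {ω η : Frm V} (h : η ∈ Submodule.span (ZMod 2) {ω}) : η = 0 ∨ η = ω := by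
  obtain ⟨t, rfl⟩ := Submodule.mem_span_singleton.1 h
  rcases z01 t with h1 | h1
  · left
    rw [h1, zero_smul]
  · right
    rw [h1, one_smul]

theorem el_ef {A : Fam V} (h : El e A) : EFam e A := by
  induction h with
  | zero =>
    intro ω hω
    rw [(Submodule.mem_bot _).1 hω]
    exact EF.zero
  | loc ω hω =>
    intro η hη
    rcases span_frm hη with rfl | rfl
    · exact EF.zero
    · exact hω
  | prod A B _ _ _ ihA ihB =>
    intro ω hω
    obtain ⟨α, hα, β, hβ, rfl⟩ := Submodule.mem_sup.1 hω
    exact (ihA α hα).add (ihB β hβ)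
  | cone A p Y _ _ _ hpe ihA =>
    intro ω hω
    obtain ⟨α, hα, β, hβ, rfl⟩ := Submodule.mem_sup.1 hω
    obtain ⟨g, -, rfl⟩ := Submodule.mem_map.1 hβ
    exact (ihA α hα).add (wd_ef hpe g)

omit [Finite V] in
theorem zmod_mul (α β γ δ : C2) :
    (decide (α = gen ∧ β = gen) = decide (γ = gen ∧ δ = gen)) ↔
      (Multiplicative.toAdd α : ZMod 2) * Multiplicative.toAdd β
        = (Multiplicative.toAdd γ : ZMod 2) * Multiplicative.toAdd δ := by
  revert α β γ δ
  decide

/-- one form -/
theorem loc_case (ω : Frm V) (hω : EF e ω) : PP' e (Submodule.span (ZMod 2) {ω}) := by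
  have hAlt : EFam e (Submodule.span (ZMod 2) {ω}) := el_ef (El.loc ω hω)
  refine reduce _ hAlt ?_
  intro W w hW hw
  have hωA : ω ∈ Submodule.span (ZMod 2) {ω} := Submodule.mem_span_singleton_self ω
  have hrad : ∀ v : V, v ∈ rad (Submodule.span (ZMod 2) {ω}) ↔ ω v = 0 := by
    intro v
    constructor
    · intro h
      exact h ω hωA
    · intro h η hη
      rcases span_frm hη with rfl | rfl
      · rfl
      · exact h
  -- the square rule with the component of e
  have hsq : ∀ a : V, ω a a = ω a (w : V) := by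
    intro a
    have h1 : ω (e + (w : V)) a = 0 := by
      rw [(hrad _).1 hw]
      rfl
    rw [hω.symm, map_add] at h1
    rw [hω.sq a]
    exact add_eq_zero'.1 h1
  -- nondegeneracy
  have hnd : ∀ a ∈ W, (∀ b ∈ W, ω a b = 0) → a = 0 := by
    intro a ha h
    have h1 : ω a = 0 := by
      refine LinearMap.ext (fun v => ?_)
      have hv : v ∈ W ⊔ rad (Submodule.span (ZMod 2) {ω}) := by
        rw [hW.sup_eq_top]
        exact Submodule.mem_top
      obtain ⟨w, hw, r, hr, rfl⟩ := Submodule.mem_sup.1 hv
      rw [map_add, h w hw, zero_add, hω.symm, (hrad r).1 hr]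
      rfl
    have h2 : a ∈ W ⊓ rad (Submodule.span (ZMod 2) {ω}) := ⟨ha, (hrad a).2 h1⟩
    rw [hW.inf_eq_bot, Submodule.mem_bot] at h2
    exact h2
  have hnd' : ∀ a ∈ W, a ≠ 0 → ∃ b ∈ W, ω a b = 1 := by
    intro a ha ha0
    by_contra hc
    push Not at hc
    exact ha0 (hnd a ha (fun b hb => z_ne' (hc b hb)))
  by_cases hex : ∃ a ∈ W, ∃ b ∈ W, ω a b = 1
  · obtain ⟨a₀, ha₀, b₀, hb₀, hab₀⟩ := hex
    have ha₀0 : a₀ ≠ 0 := by
      rintro rfl
      rw [map_zero] at hab₀
      exact absurd hab₀ (by simp)
    have hpos : 0 < finrank (ZMod 2) W := by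
      have h1 : Submodule.span (ZMod 2) {a₀} ≤ W := by
        rw [Submodule.span_singleton_le_iff_mem]
        exact ha₀
      have h2 := Submodule.finrank_mono h1
      rw [finrank_span_singleton ha₀0] at h2
      omega
    by_cases hW1 : finrank (ZMod 2) W = 1
    · -- dimension one
      have hWe : Submodule.span (ZMod 2) {a₀} = W := by
        refine Submodule.eq_of_le_of_finrank_eq ?_ ?_
        · rw [Submodule.span_singleton_le_iff_mem]
          exact ha₀
        · rw [finrank_span_singleton ha₀0, hW1]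
      have hb₀e : b₀ = a₀ := by
        rw [← hWe] at hb₀
        rcases span_one_mem.1 hb₀ with h | h
        · rw [h, map_zero] at hab₀
          exact absurd hab₀ (by simp)
        · exact h
      have haa : ω a₀ a₀ = 1 := hb₀e ▸ hab₀
      have hwa : (w : V) = a₀ := by
        have h1 : (w : V) ∈ Submodule.span (ZMod 2) {a₀} := by
          rw [hWe]
          exact w.2
        rcases span_one_mem.1 h1 with h | h
        · have h2 := hsq a₀
          rw [haa, h, map_zero] at h2
          exact absurd h2 (by simp)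
        · exact h
      refine Elem.iso L1 _ Elem.l1 ?_
      let f : C2 →* Multiplicative W :=
        { toFun := fun t => Multiplicative.ofAdd ((Multiplicative.toAdd t : ZMod 2) • w)
          map_one' := by
            apply Multiplicative.toAdd.injective
            change (0 : ZMod 2) • w = 0
            rw [zero_smul]
          map_mul' := by
            intro s t
            apply Multiplicative.toAdd.injective
            change ((Multiplicative.toAdd s : ZMod 2) + (Multiplicative.toAdd t : ZMod 2)) • w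
              = (Multiplicative.toAdd s : ZMod 2) • w + (Multiplicative.toAdd t : ZMod 2) • w
            rw [add_smul] }
      have hw0 : w ≠ 0 := by
        intro h
        apply ha₀0
        rw [← hwa, h]
        rfl
      have hf : Function.Bijective f := by
        constructor
        · rw [injective_iff_map_eq_one]
          intro t ht
          have h1 : (Multiplicative.toAdd t : ZMod 2) • w = 0 := congrArg Multiplicative.toAdd ht
          exact Multiplicative.toAdd.injective ((smul_eq_zero.1 h1).resolve_right hw0)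
        · intro y
          have hy : ((Multiplicative.toAdd y : W) : V) ∈ Submodule.span (ZMod 2) {a₀} := by
            rw [hWe]
            exact (Multiplicative.toAdd y : W).2
          obtain ⟨α, hα⟩ := Submodule.mem_span_singleton.1 hy
          refine ⟨Multiplicative.ofAdd α, ?_⟩
          apply Multiplicative.toAdd.injective
          apply Subtype.ext
          change α • (w : V) = _
          rw [hwa, hα]
      refine iso_of_bij L1 (QW (Submodule.span (ZMod 2) {ω}) W w) f hf ?_ ?_
      · apply Multiplicative.toAdd.injective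
        change (1 : ZMod 2) • w = w
        rw [one_smul]
      · have hval : ∀ α β : C2, ω ((Multiplicative.toAdd (f α) : W) : V)
            ((Multiplicative.toAdd (f β) : W) : V)
            = (Multiplicative.toAdd α : ZMod 2) * Multiplicative.toAdd β := by
          intro α β
          change ω ((Multiplicative.toAdd α : ZMod 2) • (w : V))
            ((Multiplicative.toAdd β : ZMod 2) • (w : V)) = _
          rw [hwa, map_smul, map_smul, LinearMap.smul_apply, haa, smul_eq_mul, smul_eq_mul, mul_one]
          exact mul_comm _ _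
        have hkey : ∀ α β γ δ : C2,
            (decide (α = gen ∧ β = gen) = decide (γ = gen ∧ δ = gen)) ↔
            ∀ η ∈ Submodule.span (ZMod 2) {ω}, η ((Multiplicative.toAdd (f α) : W) : V)
              ((Multiplicative.toAdd (f β) : W) : V) = η ((Multiplicative.toAdd (f γ) : W) : V)
              ((Multiplicative.toAdd (f δ) : W) : V) := by
          intro α β γ δ
          refine (zmod_mul α β γ δ).trans ?_
          constructor
          · intro h η hη
            rcases span_frm hη with rfl | rfl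
            · rfl
            · rw [hval, hval, h]
          · intro h
            have h1 := h ω hωA
            rw [hval, hval] at h1
            exact h1
        exact fun α β γ δ => (hkey α β γ δ).trans
          (QW_eq (Submodule.span (ZMod 2) {ω}) W w (f α) (f β) (f γ) (f δ)).symm
    by_cases hW2 : finrank (ZMod 2) W = 2
    · -- dimension two
      have hgood : ∃ a ∈ W, ∃ b ∈ W, a ≠ 0 ∧ ω a a = 0 ∧ ω a b = 1 ∧
          (w : V) ∈ Submodule.span (ZMod 2) {a} := by
        by_cases hw0 : (w : V) = 0
        · refine ⟨a₀, ha₀, b₀, hb₀, ha₀0, ?_, hab₀, ?_⟩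
          · rw [hsq, hw0, map_zero]
          · rw [hw0]
            exact Submodule.zero_mem _
        · obtain ⟨b, hb, hwb⟩ := hnd' _ w.2 hw0
          refine ⟨w, w.2, b, hb, hw0, ?_, hwb, Submodule.mem_span_singleton_self _⟩
          by_contra hne
          have h1 : ω (w : V) (w : V) = 1 := z_ne hne
          -- a vector outside the line
          have hlt : Submodule.span (ZMod 2) {(w : V)} < W := by
            refine lt_of_le_of_ne ?_ ?_
            · rw [Submodule.span_singleton_le_iff_mem]
              exact w.2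
            · intro h
              have h2 : finrank (ZMod 2) (Submodule.span (ZMod 2) {(w : V)}) = 1 :=
                finrank_span_singleton hw0
              rw [h] at h2
              omega
          obtain ⟨c₀, hc₀, hc₀n⟩ := SetLike.exists_of_lt hlt
          have hc : ∃ c ∈ W, c ∉ Submodule.span (ZMod 2) {(w : V)} ∧ ω c (w : V) = 0 := by
            rcases z01 (ω c₀ (w : V)) with h2 | h2
            · exact ⟨c₀, hc₀, hc₀n, h2⟩
            · refine ⟨c₀ + w, W.add_mem hc₀ w.2, ?_, ?_⟩
              · intro h3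
                apply hc₀n
                have h4 := Submodule.add_mem _ h3 (Submodule.mem_span_singleton_self (R := ZMod 2) (w : V))
                have h5 : c₀ + (w : V) + (w : V) = c₀ := Pool.Agent.W622.ETC.add_cancel' c₀ (w : V)
                rw [h5] at h4
                exact h4
              · rw [map_add, LinearMap.add_apply, h2, h1, zadd]
          obtain ⟨c, hcW, hcn, hcw⟩ := hc
          have hcc : ω c c = 0 := by
            rw [hsq, hcw]
          have hc0 : c ≠ 0 := by
            rintro rfl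
            exact hcn (Submodule.zero_mem _)
          have hsup : Submodule.span (ZMod 2) {(w : V)} ⊔ Submodule.span (ZMod 2) {c} = W := by
            refine Submodule.eq_of_le_of_finrank_le ?_ ?_
            · refine sup_le ?_ ?_
              · rw [Submodule.span_singleton_le_iff_mem]
                exact w.2
              · rw [Submodule.span_singleton_le_iff_mem]
                exact hcW
            · have h2 : Submodule.span (ZMod 2) {(w : V)}
                  < Submodule.span (ZMod 2) {(w : V)} ⊔ Submodule.span (ZMod 2) {c} := by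
                refine lt_of_le_of_ne le_sup_left ?_
                intro h
                apply hcn
                rw [h]
                exact Submodule.mem_sup_right (Submodule.mem_span_singleton_self c)
              have h3 := Submodule.finrank_lt_finrank_of_lt h2
              have h4 : finrank (ZMod 2) (Submodule.span (ZMod 2) {(w : V)}) = 1 :=
                finrank_span_singleton hw0
              omega
          apply hc0
          refine hnd c hcW (fun v hv => ?_)
          rw [← hsup] at hv
          obtain ⟨v1, hv1, v2, hv2, rfl⟩ := Submodule.mem_sup.1 hv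
          obtain ⟨s, rfl⟩ := Submodule.mem_span_singleton.1 hv1
          obtain ⟨t, rfl⟩ := Submodule.mem_span_singleton.1 hv2
          rw [map_add, map_smul, map_smul, hcw, hcc, smul_zero, smul_zero, add_zero]
      obtain ⟨a, ha, b, hb, ha0, haa, hab, hwa⟩ := hgood
      have hba : ω b a = 1 := by
        rw [hω.symm]
        exact hab
      have hbn : b ∉ Submodule.span (ZMod 2) {a} := by
        intro h
        rcases span_one_mem.1 h with h | h
        · rw [h, map_zero] at hab
          exact absurd hab (by simp)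
        · rw [h, haa] at hab
          exact absurd hab (by simp)
      have hWe : W = Submodule.span (ZMod 2) {a} ⊔ Submodule.span (ZMod 2) {b} := by
        refine (Submodule.eq_of_le_of_finrank_le ?_ ?_).symm
        · refine sup_le ?_ ?_
          · rw [Submodule.span_singleton_le_iff_mem]
            exact ha
          · rw [Submodule.span_singleton_le_iff_mem]
            exact hb
        · have h2 : Submodule.span (ZMod 2) {a}
              < Submodule.span (ZMod 2) {a} ⊔ Submodule.span (ZMod 2) {b} := by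
            refine lt_of_le_of_ne le_sup_left ?_
            intro h
            apply hbn
            rw [h]
            exact Submodule.mem_sup_right (Submodule.mem_span_singleton_self b)
          have h3 := Submodule.finrank_lt_finrank_of_lt h2
          have h4 : finrank (ZMod 2) (Submodule.span (ZMod 2) {a}) = 1 :=
            finrank_span_singleton ha0
          omega
      have h1 : Elem (QW (⊥ : Fam V) (Submodule.span (ZMod 2) {a}) ⟨w, hwa⟩) := by
        refine elem_triv _ _ _ ?_
        intro u _ v _ η hη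
        rw [(Submodule.mem_bot _).1 hη]
        rfl
      refine Elem.iso _ _ (Elem.ext _ h1) (iso_ext ⊥ _ _ W b ⟨w, hwa⟩ w rfl hbn hWe ?_)
      change ∀ u ∈ Submodule.span (ZMod 2) {a}, ∀ v ∈ Submodule.span (ZMod 2) {a},
        ∀ c ∈ Submodule.span (ZMod 2) {a}, ∀ d ∈ Submodule.span (ZMod 2) {a},
        ∀ α β γ δ : ZMod 2,
        (∀ η ∈ Submodule.span (ZMod 2) {ω}, η (u + α • b) (v + β • b) = η (c + γ • b) (d + δ • b)) ↔
        ((∀ η ∈ (⊥ : Fam V), η u v = η c d) ∧ β • α • (w : V) + β • u + α • v
          = δ • γ • (w : V) + δ • c + γ • d)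
      have hval : ∀ u ∈ Submodule.span (ZMod 2) {a}, ∀ v ∈ Submodule.span (ZMod 2) {a},
          ∀ α β : ZMod 2, ω (u + α • b) (v + β • b)
            = ω b (β • α • (w : V) + β • u + α • v) := by
        intro u hu v hv α β
        have huv : ω u v = 0 := by
          rcases span_one_mem.1 hu with rfl | rfl
          · rw [map_zero]
            rfl
          · rcases span_one_mem.1 hv with rfl | rfl
            · rw [map_zero]
            · exact haa
        simp only [map_add, map_smul, LinearMap.add_apply, LinearMap.smul_apply, smul_eq_mul, huv,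
          hsq b, hω.symm u b]
        ring
      intro u hu v hv c hc d hd α β γ δ
      have hin : ∀ u ∈ Submodule.span (ZMod 2) {a}, ∀ v ∈ Submodule.span (ZMod 2) {a},
          ∀ α β : ZMod 2, β • α • (w : V) + β • u + α • v ∈ Submodule.span (ZMod 2) {a} := by
        intro u hu v hv α β
        exact Submodule.add_mem _ (Submodule.add_mem _ (Submodule.smul_mem _ _
          (Submodule.smul_mem _ _ hwa)) (Submodule.smul_mem _ _ hu)) (Submodule.smul_mem _ _ hv)
      constructor
      · intro h
        refine ⟨fun η hη => ?_, ?_⟩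
        · rw [(Submodule.mem_bot _).1 hη]
          rfl
        · have h2 := h ω hωA
          rw [hval u hu v hv, hval c hc d hd] at h2
          have h3 : (β • α • (w : V) + β • u + α • v) + (δ • γ • (w : V) + δ • c + γ • d)
              ∈ Submodule.span (ZMod 2) {a} :=
            Submodule.add_mem _ (hin u hu v hv α β) (hin c hc d hd γ δ)
          have h4 : ω b ((β • α • (w : V) + β • u + α • v)
              + (δ • γ • (w : V) + δ • c + γ • d)) = 0 := by
            rw [map_add, h2, zadd]
          rcases span_one_mem.1 h3 with h5 | h5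
          · exact Pool.Agent.W622.ETC.add_eq_zero'.1 h5
          · rw [h5, hba] at h4
            exact absurd h4 (by simp)
      · rintro ⟨-, h⟩ η hη
        rcases span_frm hη with rfl | rfl
        · rfl
        · rw [hval u hu v hv, hval c hc d hd, h]
    · -- local type
      refine Elem.loc _ ⟨?_, ?_, ?_, ?_, ?_⟩
      · -- quaternionic structure
        have hz : ∀ u v : Multiplicative W, (QW (Submodule.span (ZMod 2) {ω}) W w).q u v =
            (QW (Submodule.span (ZMod 2) {ω}) W w).zero ↔
            ω ((Multiplicative.toAdd u : W) : V) ((Multiplicative.toAdd v : W) : V) = 0 := by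
          intro u v
          constructor
          · intro h
            exact congrFun h ⟨ω, hωA⟩
          · intro h
            funext η
            rcases span_frm η.2 with h1 | h1
            · change η.1 _ _ = 0
              rw [h1]
              rfl
            · change η.1 _ _ = 0
              rw [h1]
              exact h
        have he : ∀ u v u' v' : Multiplicative W, (QW (Submodule.span (ZMod 2) {ω}) W w).q u v =
            (QW (Submodule.span (ZMod 2) {ω}) W w).q u' v' ↔
            ω ((Multiplicative.toAdd u : W) : V) ((Multiplicative.toAdd v : W) : V) =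
            ω ((Multiplicative.toAdd u' : W) : V) ((Multiplicative.toAdd v' : W) : V) := by
          intro u v u' v'
          rw [QW_eq]
          constructor
          · intro h
            exact h ω hωA
          · intro h η hη
            rcases span_frm hη with rfl | rfl
            · rfl
            · exact h
        refine ⟨?_, ?_, ?_, ?_, ?_⟩
        · intro u
          exact Multiplicative.toAdd.injective (vadd (V := W) _)
        · intro u
          refine (hz u _).2 ?_
          change ω ((Multiplicative.toAdd u : W) : V)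
            ((w : V) + ((Multiplicative.toAdd u : W) : V)) = 0
          rw [map_add, hsq, zadd]
        · intro u v
          exact (he u v v u).2 (hω.symm _ _)
        · intro u v v'
          refine (he u v u v').trans (Iff.trans ?_ (hz u _).symm)
          change _ ↔ ω ((Multiplicative.toAdd u : W) : V)
            (((Multiplicative.toAdd v : W) : V) + ((Multiplicative.toAdd v' : W) : V)) = 0
          rw [map_add]
          exact Pool.Agent.W622.ETC.add_eq_zero'.symm
        · intro u v u' v' h
          have h1 := (he u v u' v').1 h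
          rcases z01 (ω ((Multiplicative.toAdd u : W) : V) ((Multiplicative.toAdd v : W) : V))
            with h0 | h0
          · refine ⟨1, (he _ _ _ _).2 ?_, (he _ _ _ _).2 ?_⟩
            · rw [h0]
              change 0 = ω ((Multiplicative.toAdd u : W) : V) (0 : V)
              rw [map_zero]
            · rw [← h1, h0]
              change 0 = ω ((Multiplicative.toAdd u' : W) : V) (0 : V)
              rw [map_zero]
          · rw [h0] at h1
            rcases z01 (ω ((Multiplicative.toAdd u' : W) : V) ((Multiplicative.toAdd v : W) : V))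
              with h2 | h2
            · rcases z01 (ω ((Multiplicative.toAdd u : W) : V)
                ((Multiplicative.toAdd v' : W) : V)) with h3 | h3
              · refine ⟨v * v', (he _ _ _ _).2 ?_, (he _ _ _ _).2 ?_⟩
                · change _ = ω ((Multiplicative.toAdd u : W) : V)
                    (((Multiplicative.toAdd v : W) : V) + ((Multiplicative.toAdd v' : W) : V))
                  rw [map_add, h3, add_zero]
                · change _ = ω ((Multiplicative.toAdd u' : W) : V)
                    (((Multiplicative.toAdd v : W) : V) + ((Multiplicative.toAdd v' : W) : V))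
                  rw [map_add, h2, zero_add]
              · refine ⟨v', (he _ _ _ _).2 ?_, rfl⟩
                rw [h0, h3]
            · refine ⟨v, rfl, (he _ _ _ _).2 ?_⟩
              rw [← h1, h2]
      · change Finite (Multiplicative W)
        infer_instance
      · change 8 ≤ Nat.card (Multiplicative W)
        have h1 : Nat.card (Multiplicative W) = Nat.card W :=
          Nat.card_congr Multiplicative.toAdd
        rw [h1, Module.natCard_eq_pow_finrank (K := ZMod 2), Nat.card_zmod]
        have h7 : 3 ≤ finrank (ZMod 2) W := by omega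
        calc 8 = 2 ^ 3 := by norm_num
          _ ≤ 2 ^ finrank (ZMod 2) W := Nat.pow_le_pow_right (by norm_num) h7
      · intro u hu
        apply Multiplicative.toAdd.injective
        apply Subtype.ext
        refine hnd _ (Multiplicative.toAdd u : W).2 (fun v hv => ?_)
        exact congrFun (hu (Multiplicative.ofAdd (⟨v, hv⟩ : W))) ⟨ω, hωA⟩
      · classical
        have h1 : {t : (QW (Submodule.span (ZMod 2) {ω}) W w).Q |
            ∃ u v, (QW (Submodule.span (ZMod 2) {ω}) W w).q u v = t}
            = {(fun _ => 0 : Submodule.span (ZMod 2) {ω} → ZMod 2),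
              (fun η => η.1 a₀ b₀ : Submodule.span (ZMod 2) {ω} → ZMod 2)} := by
          ext t
          constructor
          · rintro ⟨u, v, rfl⟩
            rcases z01 (ω ((Multiplicative.toAdd u : W) : V) ((Multiplicative.toAdd v : W) : V))
              with h0 | h0
            · left
              funext η
              rcases span_frm η.2 with h2 | h2
              · change η.1 _ _ = 0
                rw [h2]
                rfl
              · change η.1 _ _ = 0
                rw [h2]
                exact h0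
            · right
              funext η
              rcases span_frm η.2 with h2 | h2
              · change η.1 _ _ = η.1 a₀ b₀
                rw [h2]
                rfl
              · change η.1 _ _ = η.1 a₀ b₀
                rw [h2, hab₀]
                exact h0
          · rintro (rfl | rfl)
            · refine ⟨(1 : Multiplicative W), (1 : Multiplicative W), ?_⟩
              funext η
              change η.1 (0 : V) (0 : V) = 0
              rw [map_zero]
            · exact ⟨Multiplicative.ofAdd (⟨a₀, ha₀⟩ : W), Multiplicative.ofAdd (⟨b₀, hb₀⟩ : W), rfl⟩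
        rw [h1]
        refine Set.ncard_pair ?_
        intro h
        have h2 := congrFun h ⟨ω, hωA⟩
        simp only at h2
        rw [hab₀] at h2
        exact absurd h2 (by simp)
  · push Not at hex
    refine elem_triv _ _ _ ?_
    intro a ha b hb η hη
    rcases span_frm hη with rfl | rfl
    · rfl
    · exact z_ne' (hex a ha b hb)

theorem mem_rad_iff {A : Fam V} (hA : EFam e A) {v : V} :
    v ∈ rad A ↔ ∀ f ∈ supp A, f v = 0 := by
  constructor
  · intro h f hf
    have h1 : supp A ≤ ann v := by
      rw [supp_le]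
      intro ω hω a
      exact (hA ω hω).mem_ann (h ω hω) a
    exact h1 hf
  · intro h ω hω
    refine LinearMap.ext (fun w => ?_)
    rw [(hA ω hω).symm]
    exact h _ (sp_le_supp hω ⟨w, rfl⟩)

theorem rad_sup (A B : Fam V) : rad (A ⊔ B) = rad A ⊓ rad B := by
  ext v
  constructor
  · intro h
    exact ⟨fun ω hω => h ω (Submodule.mem_sup_left hω), fun ω hω => h ω (Submodule.mem_sup_right hω)⟩
  · rintro ⟨h1, h2⟩ ω hω
    obtain ⟨α, hα, β, hβ, rfl⟩ := Submodule.mem_sup.1 hω
    rw [LinearMap.add_apply, h1 α hα, h2 β hβ, add_zero]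

/-- products -/
theorem prod_case (A B : Fam V) (hA : EFam e A) (hB : EFam e B)
    (hdis : Disjoint (supp A) (supp B)) (ihA : PP' e A) (ihB : PP' e B) : PP' e (A ⊔ B) := by
  have hAB : EFam e (A ⊔ B) := by
    intro ω hω
    obtain ⟨α, hα, β, hβ, rfl⟩ := Submodule.mem_sup.1 hω
    exact (hA α hα).add (hB β hβ)
  refine reduce _ hAB ?_
  intro W w₀ hW hw₀
  rw [rad_sup] at hW hw₀
  -- every vector is a sum of radical elements
  have hsum : ∀ v : V, ∃ u ∈ rad A, ∃ w ∈ rad B, u + w = v := by
    intro v
    obtain ⟨u, hu1, hu2⟩ := exists_glue hdis 0 v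
    refine ⟨u, (mem_rad_iff hA).2 (fun f hf => ?_), v + u, (mem_rad_iff hB).2 (fun f hf => ?_), ?_⟩
    · rw [hu1 f hf, map_zero]
    · rw [map_add, hu2 f hf, zadd]
    · rw [add_comm v u, Pool.Agent.W622.ETC.add_cancel_left']
  have hdec : ∀ v : V, ∃ w ∈ W, ∃ s ∈ rad A ⊓ rad B, w + s = v := by
    intro v
    have hv : v ∈ W ⊔ rad A ⊓ rad B := by
      rw [hW.sup_eq_top]
      exact Submodule.mem_top
    obtain ⟨w, hw, s, hs, h⟩ := Submodule.mem_sup.1 hv
    exact ⟨w, hw, s, hs, h⟩
  have h1 : (W ⊓ rad B) ⊔ rad A = ⊤ := by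
    rw [eq_top_iff]
    intro v _
    obtain ⟨u, hu, w, hw, rfl⟩ := hsum v
    obtain ⟨w', hw', s, hs, rfl⟩ := hdec w
    have h2 : w' ∈ rad B := by
      have h3 := (rad B).add_mem hw hs.2
      have h4 : w' + s + s = w' := Pool.Agent.W622.ETC.add_cancel' w' s
      rw [h4] at h3
      exact h3
    refine Submodule.mem_sup.2 ⟨w', ⟨hw', h2⟩, u + s, (rad A).add_mem hu hs.1, ?_⟩
    abel
  have h2 : (W ⊓ rad A) ⊔ rad B = ⊤ := by
    rw [eq_top_iff]
    intro v _
    obtain ⟨u, hu, w, hw, rfl⟩ := hsum v
    obtain ⟨u', hu', s, hs, rfl⟩ := hdec u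
    have h2 : u' ∈ rad A := by
      have h3 := (rad A).add_mem hu hs.1
      have h4 : u' + s + s = u' := Pool.Agent.W622.ETC.add_cancel' u' s
      rw [h4] at h3
      exact h3
    refine Submodule.mem_sup.2 ⟨u', ⟨hu', h2⟩, s + w, (rad B).add_mem hs.2 hw, ?_⟩
    abel
  have h3 : (W ⊓ rad B) ⊔ (W ⊓ rad A) = W := by
    refine le_antisymm (sup_le inf_le_left inf_le_left) ?_
    intro v hv
    have hv' : v ∈ (W ⊓ rad B) ⊔ rad A := by
      rw [h1]
      exact Submodule.mem_top
    obtain ⟨w, hw, u, hu, rfl⟩ := Submodule.mem_sup.1 hv'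
    refine Submodule.mem_sup.2 ⟨w, hw, u, ⟨?_, hu⟩, rfl⟩
    have h4 := W.add_mem hw.1 hv
    have h5 : w + (w + u) = u := Pool.Agent.W622.ETC.add_cancel_left' w u
    rw [h5] at h4
    exact h4
  have h4 : Disjoint (W ⊓ rad B) (W ⊓ rad A) := by
    rw [disjoint_iff, eq_bot_iff]
    rintro v ⟨⟨a1, a2⟩, ⟨-, a3⟩⟩
    have h5 : v ∈ W ⊓ (rad A ⊓ rad B) := ⟨a1, a3, a2⟩
    rw [hW.inf_eq_bot] at h5
    exact h5
  have hw₁ : (w₀ : V) ∈ (W ⊓ rad B) ⊔ (W ⊓ rad A) := by
    rw [h3]
    exact w₀.2
  obtain ⟨u₁, hu₁, u₂, hu₂, hu⟩ := Submodule.mem_sup.1 hw₁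
  have hA1 : e + u₁ ∈ rad A := by
    have h5 := (rad A).add_mem hw₀.1 hu₂.2
    have h6 : e + (w₀ : V) + u₂ = e + u₁ := by
      rw [← hu, add_assoc, Pool.Agent.W622.ETC.add_cancel' u₁ u₂]
    rw [h6] at h5
    exact h5
  have hB1 : e + u₂ ∈ rad B := by
    have h5 := (rad B).add_mem hw₀.2 hu₁.2
    have h6 : e + (w₀ : V) + u₁ = e + u₂ := by
      rw [← hu, add_assoc, add_comm u₁ u₂, Pool.Agent.W622.ETC.add_cancel' u₂ u₁]
    rw [h6] at h5
    exact h5
  exact Elem.iso _ _ (Elem.prod _ _ (ihA _ ⟨u₁, hu₁⟩ h1 hA1) (ihB _ ⟨u₂, hu₂⟩ h2 hB1))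
    (iso_prod A B hA hB _ _ W ⟨u₁, hu₁⟩ ⟨u₂, hu₂⟩ w₀ hu h3 h4 inf_le_right inf_le_right)

/-- cones -/
theorem cone_case (A : Fam V) (p : Dl V) (Y : DSub V) (hA : EFam e A) (hY : supp A ≤ Y)
    (hp : p ∉ Y) (hpe : p e = 0) (ihA : PP' e A) : PP' e (A ⊔ Submodule.map (wd e p) Y) := by
  by_cases hY0 : Y = ⊥
  · rw [hY0, Submodule.map_bot, sup_bot_eq]
    exact ihA
  obtain ⟨g₀, hg₀, hg₀0⟩ := (Submodule.ne_bot_iff Y).1 hY0
  have hp0 : p ≠ 0 := by
    rintro rfl
    exact hp Y.zero_mem
  set C : Fam V := A ⊔ Submodule.map (wd e p) Y with hC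
  have hAC : A ≤ C := le_sup_left
  have hgC : ∀ g ∈ Y, wd e p g ∈ C := fun g hg =>
    Submodule.mem_sup_right (Submodule.mem_map_of_mem hg)
  have hCalt : EFam e C := by
    intro ω hω
    obtain ⟨α, hα, β, hβ, rfl⟩ := Submodule.mem_sup.1 hω
    obtain ⟨g, -, rfl⟩ := Submodule.mem_map.1 hβ
    exact (hA α hα).add (wd_ef hpe g)
  have hrad : ∀ v : V, v ∈ rad C ↔ (p v = 0 ∧ ∀ g ∈ Y, g v = 0) := by
    intro v
    constructor
    · intro h
      have hpv : p v = 0 := by
        by_contra hne
        have h1 : p v = 1 := z_ne hne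
        have h2 := h _ (hgC g₀ hg₀)
        rw [wd_val_one' h1] at h2
        have h3 : g₀ = (g₀ v + g₀ e) • p := Pool.Agent.W622.ETC.add_eq_zero'.1 h2
        rcases z01 (g₀ v + g₀ e) with h4 | h4
        · rw [h4, zero_smul] at h3
          exact hg₀0 h3
        · rw [h4, one_smul] at h3
          exact hp (h3 ▸ hg₀)
      refine ⟨hpv, fun g hg => ?_⟩
      have h2 := h _ (hgC g hg)
      rw [wd_val_zero hpv] at h2
      exact (smul_eq_zero.1 h2).resolve_right hp0
    · rintro ⟨h1, h2⟩ ω hω
      obtain ⟨α, hα, β, hβ, rfl⟩ := Submodule.mem_sup.1 hω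
      obtain ⟨g, hg, rfl⟩ := Submodule.mem_map.1 hβ
      have h3 : α v = 0 := (mem_rad_iff hA).2 (fun f hf => h2 f (hY hf)) α hα
      rw [LinearMap.add_apply, h3, wd_val_zero h1, h2 g hg, zero_smul, add_zero]
  refine reduce _ hCalt ?_
  intro W w hW hw
  have hdec : ∀ v : V, ∃ w ∈ W, ∃ s ∈ rad C, w + s = v := by
    intro v
    have hv : v ∈ W ⊔ rad C := by
      rw [hW.sup_eq_top]
      exact Submodule.mem_top
    obtain ⟨w, hw, s, hs, h⟩ := Submodule.mem_sup.1 hv
    exact ⟨w, hw, s, hs, h⟩
  obtain ⟨b, hb1, hb2⟩ := exists_coann hp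
  obtain ⟨x, hx, s, hs, hxs⟩ := hdec b
  obtain ⟨hs1, hs2⟩ := (hrad s).1 hs
  have hpx : p x = 1 := by
    rw [← hxs, map_add, hs1, add_zero] at hb2
    exact hb2
  have hgx : ∀ g ∈ Y, g x = 0 := by
    intro g hg
    have h1 := hb1 g hg
    rw [← hxs, map_add, hs2 g hg, add_zero] at h1
    exact h1
  have hxrad : x ∈ rad A := (mem_rad_iff hA).2 (fun f hf => hgx f (hY hf))
  set W₀ : Submodule (ZMod 2) V := W ⊓ LinearMap.ker p with hW₀
  have hW₀p : ∀ v ∈ W₀, p v = 0 := fun v hv => LinearMap.mem_ker.1 hv.2
  have hpw : p (w : V) = 0 := by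
    have h1 := ((hrad _).1 hw).1
    rw [map_add, hpe, zero_add] at h1
    exact h1
  have hgw : ∀ g ∈ Y, g e = g (w : V) := by
    intro g hg
    have h1 := ((hrad _).1 hw).2 g hg
    rw [map_add] at h1
    exact Pool.Agent.W622.ETC.add_eq_zero'.1 h1
  have hwW₀ : (w : V) ∈ W₀ := ⟨w.2, LinearMap.mem_ker.2 hpw⟩
  have hxn : x ∉ W₀ := by
    intro h
    have := hW₀p x h
    rw [hpx] at this
    exact absurd this (by simp)
  have hWe : W = W₀ ⊔ Submodule.span (ZMod 2) {x} := by
    refine le_antisymm ?_ (sup_le inf_le_left ?_)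
    · intro w hw
      refine Submodule.mem_sup.2 ⟨w + p w • x, ⟨W.add_mem hw (W.smul_mem _ hx), ?_⟩, p w • x,
        Submodule.smul_mem _ _ (Submodule.mem_span_singleton_self x), ?_⟩
      · rw [SetLike.mem_coe, LinearMap.mem_ker, map_add, map_smul, hpx, smul_eq_mul, mul_one, zadd]
      · exact Pool.Agent.W622.ETC.add_cancel' w (p w • x)
    · rw [Submodule.span_singleton_le_iff_mem]
      exact hx
  have hradle : rad C ≤ rad A := fun v hv ω hω => hv ω (hAC hω)
  have hW₀A : W₀ ⊔ rad A = ⊤ := by
    rw [eq_top_iff, ← hW.sup_eq_top]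
    refine sup_le ?_ (hradle.trans le_sup_right)
    rw [hWe]
    refine sup_le le_sup_left ?_
    rw [Submodule.span_singleton_le_iff_mem]
    exact Submodule.mem_sup_right hxrad
  refine Elem.iso _ _ (Elem.ext _ (ihA W₀ ⟨w, hwW₀⟩ hW₀A (hradle hw)))
    (iso_ext A C W₀ W x ⟨w, hwW₀⟩ w rfl hxn hWe ?_)
  change ∀ u ∈ W₀, ∀ v ∈ W₀, ∀ c ∈ W₀, ∀ d ∈ W₀, ∀ α β γ δ : ZMod 2,
    (∀ η ∈ C, η (u + α • x) (v + β • x) = η (c + γ • x) (d + δ • x)) ↔
    ((∀ η ∈ A, η u v = η c d) ∧ β • α • (w : V) + β • u + α • v
      = δ • γ • (w : V) + δ • c + γ • d)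
  have hvalA : ∀ ω ∈ A, ∀ u v : V, ∀ α β : ZMod 2, ω (u + α • x) (v + β • x) = ω u v := by
    intro ω hω u v α β
    have h1 : ω x = 0 := hxrad ω hω
    have h2 : ∀ w, ω w x = 0 := by
      intro w
      rw [(hA ω hω).symm, h1]
      rfl
    simp only [map_add, map_smul, LinearMap.add_apply, LinearMap.smul_apply, smul_eq_mul, h1, h2,
      LinearMap.zero_apply, mul_zero, add_zero]
  have hvalg : ∀ g ∈ Y, ∀ u ∈ W₀, ∀ v ∈ W₀, ∀ α β : ZMod 2,
      wd e p g (u + α • x) (v + β • x) = g (β • α • (w : V) + β • u + α • v) := by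
    intro g hg u hu v hv α β
    rw [wd_apply', hgw g hg]
    simp only [map_add, map_smul, smul_eq_mul, hpx, hgx g hg, hW₀p u hu, hW₀p v hv]
    ring
  intro u hu v hv c hc d hd α β γ δ
  constructor
  · intro h
    refine ⟨fun ω hω => ?_, ?_⟩
    · have h1 := h ω (hAC hω)
      rw [hvalA ω hω, hvalA ω hω] at h1
      exact h1
    · have h1 : (β • α • (w : V) + β • u + α • v) + (δ • γ • (w : V) + δ • c + γ • d) ∈ W₀ :=
        W₀.add_mem (W₀.add_mem (W₀.add_mem (W₀.smul_mem _ (W₀.smul_mem _ hwW₀))
          (W₀.smul_mem _ hu)) (W₀.smul_mem _ hv))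
          (W₀.add_mem (W₀.add_mem (W₀.smul_mem _ (W₀.smul_mem _ hwW₀)) (W₀.smul_mem _ hc))
            (W₀.smul_mem _ hd))
      have h2 : (β • α • (w : V) + β • u + α • v) + (δ • γ • (w : V) + δ • c + γ • d)
          ∈ W ⊓ rad C := by
        refine ⟨h1.1, (hrad _).2 ⟨hW₀p _ h1, fun g hg => ?_⟩⟩
        have h3 := h _ (hgC g hg)
        rw [hvalg g hg u hu v hv, hvalg g hg c hc d hd] at h3
        rw [map_add, h3, zadd]
      rw [hW.inf_eq_bot, Submodule.mem_bot] at h2
      exact Pool.Agent.W622.ETC.add_eq_zero'.1 h2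
  · rintro ⟨h1, h2⟩ ω hω
    obtain ⟨η, hη, θ, hθ, rfl⟩ := Submodule.mem_sup.1 hω
    obtain ⟨g, hg, rfl⟩ := Submodule.mem_map.1 hθ
    have h3 := hvalg g hg u hu v hv α β
    have h4 := hvalg g hg c hc d hd γ δ
    have h5 := hvalA η hη u v α β
    have h6 := hvalA η hη c d γ δ
    rw [LinearMap.add_apply, LinearMap.add_apply, LinearMap.add_apply, LinearMap.add_apply,
      h3, h4, h5, h6, h1 η hη, h2]

theorem all_cases {A : Fam V} (h : El e A) : PP' e A := by
  induction h with
  | zero =>
    intro W w _ _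
    refine elem_triv _ _ _ ?_
    intro a _ b _ ω hω
    rw [(Submodule.mem_bot _).1 hω]
    rfl
  | loc ω hω => exact loc_case ω hω
  | prod A B hA hB hdis ihA ihB => exact prod_case A B (el_ef hA) (el_ef hB) hdis ihA ihB
  | cone A p Y hA hY hp hpe ihA => exact cone_case A p Y (el_ef hA) hY hp hpe ihA

end

/-- families of elementary type give structures of elementary type -/
theorem t_BRO : S_BRO := by
  intro V _ _ _ e A hA
  have h0 : e + e ∈ rad A := by
    rw [vadd]
    exact (rad A).zero_mem
  have h := all_cases hA ⊤ ⟨e, Submodule.mem_top⟩ (top_sup_eq _) h0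
  refine Elem.iso _ _ h ?_
  let f : Multiplicative (⊤ : Submodule (ZMod 2) V) →* Multiplicative V :=
    AddMonoidHom.toMultiplicative ((⊤ : Submodule (ZMod 2) V).subtype.toAddMonoidHom)
  have hf : Function.Bijective f := by
    constructor
    · intro a b hab
      have h1 : ((Multiplicative.toAdd a : (⊤ : Submodule (ZMod 2) V)) : V)
          = ((Multiplicative.toAdd b : (⊤ : Submodule (ZMod 2) V)) : V) :=
        congrArg Multiplicative.toAdd hab
      exact Multiplicative.toAdd.injective (Subtype.ext h1)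
    · intro b
      exact ⟨Multiplicative.ofAdd (⟨Multiplicative.toAdd b, Submodule.mem_top⟩ :
        (⊤ : Submodule (ZMod 2) V)), rfl⟩
  exact iso_of_bij (QW A ⊤ ⟨e, Submodule.mem_top⟩) (QD e A) f hf rfl (fun _ _ _ _ => Iff.rfl)

end Pool.Agent.W764.ELG
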